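import Pool.Graph.R_seed8.Y430.SS.Lf
import Pool.Graph.R_seed8.Y529.FJ.Ext
import Pool.Graph.R_pool_sql_team_seeded_2aa45f1a.Q105.FJ.TF

/-!
# Abelian groups in the class, and the extension criterion
-/

set_option autoImplicit false
set_option linter.style.haveILetI false

namespace Pool.Agent.H91.CP

open Pool.Agent.Y110.FJ (ClosedE)
open Pool.Agent.Y462.SS (Closed)
open Pool.Agent.Q152.WP (ExtClosed)

variable {C : ∀ (G : Type) [Group G], Prop}

/-- the trivial group -/
theorem triv_mem (hC : Closed C) (G : Type) [Group G] [Subsingleton G] : C G :=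
  hC.of_injective G _ (1 : G →* Multiplicative ℤ) (fun _ _ _ => Subsingleton.elim _ _) hC.int

/-- finite groups -/
theorem fin_mem (hC : Closed C) (G : Type) [Group G] [Finite G] : C G :=
  hC.finiteIndex G ⊥ inferInstance (triv_mem hC _)

/-- free abelian groups of finite rank -/
theorem pow_mem' (hC : Closed C) (α : Type) [Finite α] : C (α → Multiplicative ℤ) := by
  induction α using Finite.induction_empty_option with
  | @of_equiv α β e ih =>
    refine hC.of_injective _ _ (MonoidHom.pi fun a : α =>
      Pi.evalMonoidHom (fun _ : β => Multiplicative ℤ) (e a)) ?_ ih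
    intro x y h
    funext b
    have h1 := congrFun h (e.symm b)
    change x (e (e.symm b)) = y (e (e.symm b)) at h1
    rwa [e.apply_symm_apply] at h1
  | h_empty => exact triv_mem hC _
  | @h_option α _ ih =>
    refine hC.of_injective _ _ ((Pi.evalMonoidHom (fun _ : Option α => Multiplicative ℤ) none).prod
      (MonoidHom.pi fun a : α => Pi.evalMonoidHom (fun _ : Option α => Multiplicative ℤ) (some a)))
      ?_ (hC.prod _ _ hC.int ih)
    intro x y h
    have h1 := congrArg Prod.fst h
    have h2 := congrArg Prod.snd h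
    funext a
    cases a with
    | none => exact h1
    | some a => exact congrFun h2 a

/-- abelian groups -/
theorem comm_mem (hC : Closed C) (G : Type) [CommGroup G] : C G := by
  classical
  refine Pool.Agent.Y430.SS.of_directed hC G (Finset G) (fun i j => ⟨i ∪ j,
    Finset.subset_union_left, Finset.subset_union_right⟩)
    (fun s => Subgroup.closure (s : Set G)) (fun s t h => Subgroup.closure_mono (by exact_mod_cast h))
    (fun g => ⟨{g}, Subgroup.subset_closure (by simp)⟩) (fun s => ?_)
  haveI : Group.FG ↥(Subgroup.closure (s : Set G)) :=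
    (Group.fg_iff_subgroup_fg _).2 ⟨s, rfl⟩
  obtain ⟨ι, κ, hι, hκ, p, hp, e, ⟨f⟩⟩ :=
    CommGroup.equiv_free_prod_prod_multiplicative_zmod ↥(Subgroup.closure (s : Set G))
  haveI : ∀ i, NeZero (p i ^ e i) := fun i => ⟨pow_ne_zero _ (hp i).ne_zero⟩
  haveI : ∀ i, Finite (Multiplicative (ZMod (p i ^ e i))) := fun i =>
    inferInstanceAs (Finite (ZMod (p i ^ e i)))
  refine hC.of_injective _ _ f.toMonoidHom f.injective (hC.prod _ _ ?_ (fin_mem hC _))
  exact pow_mem' hC _

/-- the extension criterion with infinite cyclic subgroups -/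
theorem ext_closed (hC : ClosedE C) : ExtClosed C := by
  intro G Q _ _ f hf hQ hN h
  have hQ' : C (G ⧸ f.ker) :=
    hC.base.of_injective _ _ (QuotientGroup.kerLift f) (QuotientGroup.kerLift_injective f) hQ
  refine Pool.Agent.Y529.FJ.t_ext C hC G f.ker hN hQ' ?_
  intro g hg
  have h1 := h (f g) (by
    rw [isOfFinOrder_iff_pow_eq_one]
    rintro ⟨n, hn, hn'⟩
    refine hg n hn ?_
    rw [MonoidHom.mem_ker, map_pow, hn'])
  have h2 : f.ker ⊔ Subgroup.zpowers g = (Subgroup.zpowers (f g)).comap f := by
    rw [← MonoidHom.map_zpowers, Subgroup.comap_map_eq, sup_comm]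
  rw [h2]
  exact h1

end Pool.Agent.H91.CP
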