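import Pool.Agent.H91.CP.Pres

/-!
# Presentations by conjugation relations with letters ranked by a partially ordered set
-/

set_option autoImplicit false
set_option linter.style.haveILetI false
set_option linter.unusedSectionVars false

namespace Pool.Agent.H91.CP

open Pool.Agent.Q105.FJ Monoid
open Pool.Agent.Y110.FJ (ClosedE)
open Pool.Agent.Y462.SS (Closed)

variable {Q : Type} [Group Q] {V : Type} {P : Type*} [Preorder P]

/-- an element above `p` involves finitely many letters -/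
theorem high_fin (rk : V → P) (p : P) (w : Coprod Q (FreeGroup V)) (hw : w ∈ High Q rk p) :
    ∃ A : Set V, A.Finite ∧
      w ∈ Subgroup.closure (Set.range Coprod.inl ∪ {x | ∃ v, v ∈ A ∧ p < rk v ∧ x = lt Q v}) := by
  have hm : ∀ A B : Set V, A ⊆ B →
      Subgroup.closure (Set.range Coprod.inl ∪ {x : Coprod Q (FreeGroup V) |
        ∃ v, v ∈ A ∧ p < rk v ∧ x = lt Q v}) ≤
      Subgroup.closure (Set.range Coprod.inl ∪ {x | ∃ v, v ∈ B ∧ p < rk v ∧ x = lt Q v}) := by
    intro A B h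
    refine Subgroup.closure_mono (Set.union_subset_union_right _ ?_)
    rintro _ ⟨v, hv, hv', rfl⟩
    exact ⟨v, h hv, hv', rfl⟩
  induction hw using Subgroup.closure_induction with
  | mem x hx =>
    rcases hx with ⟨a, rfl⟩ | ⟨v, hv, rfl⟩
    · exact ⟨∅, Set.finite_empty, Subgroup.subset_closure (Or.inl ⟨a, rfl⟩)⟩
    · exact ⟨{v}, Set.finite_singleton v, Subgroup.subset_closure (Or.inr ⟨v, rfl, hv, rfl⟩)⟩
  | one => exact ⟨∅, Set.finite_empty, one_mem _⟩
  | mul x y _ _ hx hy =>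
    obtain ⟨A, hA, h1⟩ := hx
    obtain ⟨B, hB, h2⟩ := hy
    exact ⟨A ∪ B, hA.union hB, mul_mem (hm _ _ Set.subset_union_left h1)
      (hm _ _ Set.subset_union_right h2)⟩
  | inv x _ hx =>
    obtain ⟨A, hA, h1⟩ := hx
    exact ⟨A, hA, inv_mem h1⟩

/-- one relator after a change of the ranks -/
theorem rerank1 {rk : V → P} {ord : V → ℕ} {x : Coprod Q (FreeGroup V)} (hx : IsRel rk ord x) :
    ∃ A : Set V, A.Finite ∧ ∀ rk' : V → ℕ, (∀ a ∈ A, ∀ b ∈ A, rk a < rk b → rk' a < rk' b) →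
      (∀ a ∈ A, ∀ b ∈ A, rk a = rk b → rk' a = rk' b) → IsRel rk' ord x := by
  obtain ⟨w, v, z, hw, hz, h⟩ := hx
  obtain ⟨A, hA, hwA⟩ := high_fin rk _ w hw
  refine ⟨insert v (insert z A), (hA.insert z).insert v, fun rk' h1 h2 => ?_⟩
  refine ⟨w, v, z, ?_, ?_, h⟩
  · refine Subgroup.closure_mono (Set.union_subset_union_right _ ?_) hwA
    rintro _ ⟨u, hu, hu', rfl⟩
    exact ⟨u, h1 v (Set.mem_insert _ _) u (Set.mem_insert_of_mem _ (Set.mem_insert_of_mem _ hu)) hu',
      rfl⟩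
  · exact h2 z (Set.mem_insert_of_mem _ (Set.mem_insert _ _)) v (Set.mem_insert _ _) hz

/-- finitely many relators after a change of the ranks -/
theorem rerank {rk : V → P} {ord : V → ℕ} {T : Set (Coprod Q (FreeGroup V))} (hT : T.Finite)
    (hx : ∀ x ∈ T, IsRel rk ord x) :
    ∃ (rk' : V → ℕ) (n : ℕ), (∀ v, rk' v < n) ∧ ∀ x ∈ T, IsRel rk' ord x := by
  classical
  choose! A hA hA' using fun x hx' => rerank1 (hx x hx')
  obtain ⟨B, hB⟩ : ∃ B : Set V, B = ⋃ x ∈ T, A x := ⟨_, rfl⟩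
  have hBf : B.Finite := by
    rw [hB]
    exact hT.biUnion fun x hx => hA x hx
  have hAB : ∀ x ∈ T, A x ⊆ B := by
    intro x hx a ha
    rw [hB]
    exact Set.mem_biUnion hx ha
  obtain ⟨D, hD⟩ : ∃ D : Finset P, D = (hBf.image rk).toFinset := ⟨_, rfl⟩
  have hD' : ∀ b ∈ B, rk b ∈ D := by
    intro b hb
    rw [hD, Set.Finite.mem_toFinset]
    exact ⟨b, hb, rfl⟩
  refine ⟨fun v => (D.filter (· < rk v)).card, D.card + 1, fun v => ?_, fun x hx => ?_⟩
  · exact Nat.lt_succ_of_le (Finset.card_filter_le _ _)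
  · refine hA' x hx _ (fun a ha b hb hab => ?_) (fun a _ b _ hab => ?_)
    · refine Finset.card_lt_card ?_
      rw [Finset.ssubset_iff_of_subset]
      · exact ⟨rk a, by simp [hD' a (hAB x hx ha), hab], by simp⟩
      · intro r hr
        rw [Finset.mem_filter] at hr ⊢
        exact ⟨hr.1, hr.2.trans hab⟩
    · change (D.filter (· < rk a)).card = (D.filter (· < rk b)).card
      rw [hab]

/-- finitely many relators -/
theorem pg_fin {C : ∀ (G : Type) [Group G], Prop} (hC : ClosedE C) (hQ : C Q) {rk : V → P}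
    {ord : V → ℕ} {T : Set (Coprod Q (FreeGroup V))} (hT : T.Finite)
    (hx : ∀ x ∈ T, IsRel rk ord x) : C (PG ord T) := by
  obtain ⟨rk', n, hn, h⟩ := rerank hT hx
  exact hC.base.of_injective _ _ (pg_lv rk' ord T).toMonoidHom (pg_lv rk' ord T).injective
    (lv_mem hC h n hn hQ n 0 (by omega))

theorem pg_fin_tf (hQ : TF Q) {rk : V → P}
    {ord : V → ℕ} (h0 : ∀ v, ord v = 0) {T : Set (Coprod Q (FreeGroup V))} (hT : T.Finite)
    (hx : ∀ x ∈ T, IsRel rk ord x) : TF (PG ord T) := by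
  obtain ⟨rk', n, hn, h⟩ := rerank hT hx
  exact TF.inj (pg_lv rk' ord T).toMonoidHom (pg_lv rk' ord T).injective
    (lv_tf h n hn h0 hQ n 0 (by omega))

/-- an element of the normal closure is in the normal closure of finitely many relators -/
theorem ncl_fin {F : Type} [Group F] (S U : Set F) (x : F)
    (hx : x ∈ Subgroup.normalClosure (S ∪ U)) :
    ∃ T : Set F, T.Finite ∧ T ⊆ S ∧ x ∈ Subgroup.normalClosure (T ∪ U) := by
  have hm : ∀ A B : Set F, A ⊆ B → Subgroup.normalClosure (A ∪ U) ≤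
      Subgroup.normalClosure (B ∪ U) := fun A B h =>
    Subgroup.normalClosure_mono (Set.union_subset_union_left _ h)
  let N : Subgroup F :=
    { carrier := {x | ∃ T : Set F, T.Finite ∧ T ⊆ S ∧ x ∈ Subgroup.normalClosure (T ∪ U)}
      one_mem' := ⟨∅, Set.finite_empty, Set.empty_subset _, one_mem _⟩
      mul_mem' := by
        rintro a b ⟨A, hA, hA', ha⟩ ⟨B, hB, hB', hb⟩
        exact ⟨A ∪ B, hA.union hB, Set.union_subset hA' hB',
          mul_mem (hm _ _ Set.subset_union_left ha) (hm _ _ Set.subset_union_right hb)⟩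
      inv_mem' := by
        rintro a ⟨A, hA, hA', ha⟩
        exact ⟨A, hA, hA', inv_mem ha⟩ }
  haveI : N.Normal := ⟨by
    rintro a ⟨A, hA, hA', ha⟩ g
    exact ⟨A, hA, hA', Subgroup.normalClosure_normal.conj_mem a ha g⟩⟩
  have h1 : Subgroup.normalClosure (S ∪ U) ≤ N := by
    refine Subgroup.normalClosure_le_normal ?_
    rintro y (hy | hy)
    · exact ⟨{y}, Set.finite_singleton y, Set.singleton_subset_iff.2 hy,
        Subgroup.subset_normalClosure (Or.inl rfl)⟩
    · exact ⟨∅, Set.finite_empty, Set.empty_subset _, Subgroup.subset_normalClosure (Or.inr hy)⟩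
  exact h1 hx

/-- the quotient map between two presented groups -/
def qm {F : Type} [Group F] {A B : Subgroup F} [A.Normal] [B.Normal] (h : A ≤ B) : F ⧸ A →* F ⧸ B :=
  QuotientGroup.map A B (MonoidHom.id F) h

theorem qm_id {F : Type} [Group F] {A : Subgroup F} [A.Normal] (h : A ≤ A) (x : F ⧸ A) :
    qm h x = x := by
  induction x using QuotientGroup.induction_on with
  | H g => rfl

theorem qm_qm {F : Type} [Group F] {A B D : Subgroup F} [A.Normal] [B.Normal] [D.Normal]
    (h : A ≤ B) (h' : B ≤ D) (x : F ⧸ A) : qm h' (qm h x) = qm (h.trans h') x := by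
  induction x using QuotientGroup.induction_on with
  | H g => rfl

theorem qm_surj {F : Type} [Group F] {A B : Subgroup F} [A.Normal] [B.Normal]
    (h : A ≤ B) (y : F ⧸ B) : ∃ x, qm h x = y := by
  induction y using QuotientGroup.induction_on with
  | H g => exact ⟨(g : F ⧸ A), rfl⟩

/-- **The general membership theorem.** -/
theorem pg_mem {C : ∀ (G : Type) [Group G], Prop} (hC : ClosedE C) (hQ : C Q) {rk : V → P}
    {ord : V → ℕ} {S : Set (Coprod Q (FreeGroup V))} (hx : ∀ x ∈ S, IsRel rk ord x) :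
    C (PG ord S) := by
  have hm : ∀ A B : Set (Coprod Q (FreeGroup V)), A ⊆ B → Subgroup.normalClosure (A ∪ pw ord) ≤
      Subgroup.normalClosure (B ∪ pw ord) := fun A B h =>
    Subgroup.normalClosure_mono (Set.union_subset_union_left _ h)
  haveI : Nonempty {T : Set (Coprod Q (FreeGroup V)) // T.Finite ∧ T ⊆ S} :=
    ⟨⟨∅, Set.finite_empty, Set.empty_subset _⟩⟩
  refine hC.base.colim {T : Set (Coprod Q (FreeGroup V)) // T.Finite ∧ T ⊆ S} ?_
    (fun T => PG ord T.1) (fun i j h => qm (hm i.1 j.1 h)) (PG ord S)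
    (fun i => qm (hm i.1 S i.2.2)) ?_ ?_ ?_ ?_ ?_ ?_
  · intro i j
    exact ⟨⟨i.1 ∪ j.1, i.2.1.union j.2.1, Set.union_subset i.2.2 j.2.2⟩, Set.subset_union_left,
      Set.subset_union_right⟩
  · intro i h x
    exact qm_id _ x
  · intro i j k h h' x
    exact qm_qm _ _ x
  · intro i j h x
    exact qm_qm _ _ x
  · intro y
    exact ⟨⟨∅, Set.finite_empty, Set.empty_subset _⟩, qm_surj _ y⟩
  · intro i x hx1
    induction x using QuotientGroup.induction_on with
    | H g =>
      have h1 : ((g : Coprod Q (FreeGroup V)) : PG ord S) = 1 := hx1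
      rw [QuotientGroup.eq_one_iff] at h1
      obtain ⟨T, hT, hTS, hg⟩ := ncl_fin _ _ _ h1
      refine ⟨⟨i.1 ∪ T, i.2.1.union hT, Set.union_subset i.2.2 hTS⟩, Set.subset_union_left, ?_⟩
      change ((g : Coprod Q (FreeGroup V)) : PG ord (i.1 ∪ T)) = 1
      rw [QuotientGroup.eq_one_iff]
      exact hm _ _ Set.subset_union_right hg
  · intro i
    exact pg_fin hC hQ i.2.1 (fun x hx' => hx x (i.2.2 hx'))

/-- **Torsion.** -/
theorem pg_tf (hQ : TF Q) {rk : V → P}
    {ord : V → ℕ} (h0 : ∀ v, ord v = 0) {S : Set (Coprod Q (FreeGroup V))}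
    (hx : ∀ x ∈ S, IsRel rk ord x) : TF (PG ord S) := by
  intro x hx1
  induction x using QuotientGroup.induction_on with
  | H g =>
    rw [isOfFinOrder_iff_pow_eq_one] at hx1
    obtain ⟨n, hn, h1⟩ := hx1
    rw [← QuotientGroup.mk_pow, QuotientGroup.eq_one_iff] at h1
    obtain ⟨T, hT, hTS, hg⟩ := ncl_fin _ _ _ h1
    have h2 := pg_fin_tf hQ h0 hT (fun x hx' => hx x (hTS hx')) ((g : Coprod Q (FreeGroup V)) : PG ord T)
      (isOfFinOrder_iff_pow_eq_one.2 ⟨n, hn, by
        rw [← QuotientGroup.mk_pow, QuotientGroup.eq_one_iff]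
        exact hg⟩)
    rw [QuotientGroup.eq_one_iff] at h2 ⊢
    exact Subgroup.normalClosure_mono (Set.union_subset_union_left _ hTS) h2

/-- the retraction to `Q` -/
def toQ {rk : V → P} {ord : V → ℕ} {S : Set (Coprod Q (FreeGroup V))}
    (hx : ∀ x ∈ S, IsRel rk ord x) : PG ord S →* Q :=
  QuotientGroup.lift _ (fh (MonoidHom.id Q) (fun _ => 1)) (by
    intro z hz
    have h4 : Subgroup.normalClosure (S ∪ pw ord) ≤ (fh (MonoidHom.id Q) (fun _ : V => (1 : Q))).ker := by
      refine Subgroup.normalClosure_le_normal ?_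
      rintro x (hx' | ⟨v, rfl⟩)
      · obtain ⟨w, v, z, -, -, h⟩ := hx x hx'
        exact IsRel.kill (rk := rk) _ h (fh_lt _ _ _) (fh_lt _ _ _)
      · change fh _ _ _ = 1
        rw [map_pow, fh_lt, one_pow]
    exact h4 hz)

/-- the inclusion of `Q` -/
def inQ (ord : V → ℕ) (S : Set (Coprod Q (FreeGroup V))) : Q →* PG ord S :=
  (QuotientGroup.mk' _).comp Coprod.inl

theorem toQ_inQ {rk : V → P} {ord : V → ℕ} {S : Set (Coprod Q (FreeGroup V))}
    (hx : ∀ x ∈ S, IsRel rk ord x) (a : Q) : toQ hx (inQ ord S a) = a := by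
  exact (fh_inl (V := V) (MonoidHom.id Q) (fun _ => 1) a : _)

theorem inQ_injective {rk : V → P} {ord : V → ℕ} {S : Set (Coprod Q (FreeGroup V))}
    (hx : ∀ x ∈ S, IsRel rk ord x) : Function.Injective (inQ ord S) :=
  Function.LeftInverse.injective (g := toQ hx) (toQ_inQ hx)

theorem pg_iff {C : ∀ (G : Type) [Group G], Prop} (hC : ClosedE C) {rk : V → P}
    {ord : V → ℕ} {S : Set (Coprod Q (FreeGroup V))} (hx : ∀ x ∈ S, IsRel rk ord x) :
    C (PG ord S) ↔ C Q :=
  ⟨fun h => hC.base.of_injective _ _ (inQ ord S) (inQ_injective hx) h, fun h => pg_mem hC h hx⟩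

end Pool.Agent.H91.CP
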