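import Pool.Agent.H91.CP.Ab

/-!
# One level of a presentation by conjugation relations

`K μ R E` is generated by the group `Q` and letters `i` with the relations `q i q⁻¹ = j` for `R q i j`,
`[q i q⁻¹, j] = 1` for `E q i j`, and `i ^ μ i = 1`. It embeds in a graph wreath product with the
group `Q`.
-/

set_option autoImplicit false
set_option linter.style.haveILetI false
set_option linter.unusedSectionVars false

namespace Pool.Agent.H91.CP

open Pool.Agent.Q105.FJ Monoid
open Pool.Agent.Y110.FJ (ClosedE)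
open Pool.Agent.Y462.SS (Closed)

/-! ### powers with exponents modulo `n` -/

section pow

variable {G : Type} [Group G]

theorem zpow_cast {n : ℕ} {g : G} (hg : g ^ n = 1) (k : ℤ) :
    g ^ (((k : ZMod n).cast : ℤ)) = g ^ k := by
  rw [ZMod.coe_intCast]
  conv_rhs => rw [← Int.mul_ediv_add_emod k n]
  rw [zpow_add, zpow_mul, zpow_natCast, hg, one_zpow, one_mul]

/-- the powers of an element whose `n`-th power is trivial -/
def zh (n : ℕ) (g : G) (hg : g ^ n = 1) : Multiplicative (ZMod n) →* G where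
  toFun x := g ^ ((Multiplicative.toAdd x).cast : ℤ)
  map_one' := by
    have h := zpow_cast hg 0
    rw [Int.cast_zero, zpow_zero] at h
    exact h
  map_mul' x y := by
    have h := zpow_cast hg (((Multiplicative.toAdd x).cast : ℤ) + ((Multiplicative.toAdd y).cast : ℤ))
    rw [Int.cast_add, ZMod.intCast_zmod_cast, ZMod.intCast_zmod_cast, zpow_add] at h
    exact h

theorem zh_apply (n : ℕ) (g : G) (hg : g ^ n = 1) (x : Multiplicative (ZMod n)) :
    zh n g hg x = g ^ ((Multiplicative.toAdd x).cast : ℤ) := rfl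

theorem zh_one (n : ℕ) (g : G) (hg : g ^ n = 1) : zh n g hg (Multiplicative.ofAdd 1) = g := by
  have h := zpow_cast hg 1
  rw [Int.cast_one, zpow_one] at h
  exact h

theorem zh_conj {n m : ℕ} (hnm : n = m) {B : Type} [Group B] (p : ∀ n : ℕ, B →* Multiplicative (ZMod n))
    {g h : G} (hg : g ^ n = 1) (hh : h ^ m = 1) (q : G) (hq : q * g * q⁻¹ = h) (b : B) :
    q * zh n g hg (p n b) * q⁻¹ = zh m h hh (p m b) := by
  subst hnm
  subst hq
  rw [zh_apply, zh_apply, conj_zpow]

theorem zh_comm {n m : ℕ} {g h : G} (hg : g ^ n = 1) (hh : h ^ m = 1) (q : G)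
    (hq : Commute (q * g * q⁻¹) h) (x : Multiplicative (ZMod n)) (y : Multiplicative (ZMod m)) :
    Commute (q * zh n g hg x * q⁻¹) (zh m h hh y) := by
  rw [zh_apply, zh_apply, ← conj_zpow]
  exact hq.zpow_zpow _ _

end pow

variable {Q : Type} [Group Q] {I : Type} (μ : I → ℕ) (R E : Q → I → I → Prop)

/-- the relators of one level -/
def kRel : Set (Coprod Q (FreeGroup I)) :=
  {x | (∃ q i j, R q i j ∧ x = Coprod.inl q * Coprod.inr (FreeGroup.of i) * (Coprod.inl q)⁻¹ *
      (Coprod.inr (FreeGroup.of j))⁻¹) ∨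
    (∃ q i j, E q i j ∧ x = Coprod.inl q * Coprod.inr (FreeGroup.of i) * (Coprod.inl q)⁻¹ *
      Coprod.inr (FreeGroup.of j) * (Coprod.inl q * Coprod.inr (FreeGroup.of i) * (Coprod.inl q)⁻¹)⁻¹ *
      (Coprod.inr (FreeGroup.of j))⁻¹) ∨
    (∃ i, x = Coprod.inr (FreeGroup.of i) ^ μ i)}

/-- one level of a presentation -/
def K : Type := Coprod Q (FreeGroup I) ⧸ Subgroup.normalClosure (kRel μ R E)

namespace K

instance : Group (K μ R E) := inferInstanceAs (Group (_ ⧸ _))

/-- the elements of `Q` -/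
def q : Q →* K μ R E :=
  (QuotientGroup.mk' (Subgroup.normalClosure (kRel μ R E))).comp Coprod.inl

/-- the letters -/
def y (i : I) : K μ R E :=
  QuotientGroup.mk' (Subgroup.normalClosure (kRel μ R E)) (Coprod.inr (FreeGroup.of i))

variable {μ R E}

theorem rel1 {x : Coprod Q (FreeGroup I)} (hx : x ∈ kRel μ R E) :
    QuotientGroup.mk' (Subgroup.normalClosure (kRel μ R E)) x = 1 :=
  (QuotientGroup.eq_one_iff _).2 (Subgroup.subset_normalClosure hx)

theorem conj {a : Q} {i j : I} (h : R a i j) :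
    q μ R E a * y μ R E i * (q μ R E a)⁻¹ = y μ R E j := by
  have h1 := rel1 (μ := μ) (E := E) (Or.inl ⟨a, i, j, h, rfl⟩)
  rw [map_mul, map_inv, mul_inv_eq_one, map_mul, map_mul, map_inv] at h1
  exact h1

theorem comm {a : Q} {i j : I} (h : E a i j) :
    Commute (q μ R E a * y μ R E i * (q μ R E a)⁻¹) (y μ R E j) := by
  have h1 := rel1 (μ := μ) (R := R) (Or.inr (Or.inl ⟨a, i, j, h, rfl⟩))
  rw [map_mul, map_inv, mul_inv_eq_one, map_mul, map_inv, mul_inv_eq_iff_eq_mul, map_mul, map_mul,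
    map_mul, map_inv] at h1
  exact h1

theorem pow (i : I) : y μ R E i ^ μ i = 1 := by
  have h1 := rel1 (R := R) (E := E) (μ := μ) (Or.inr (Or.inr ⟨i, rfl⟩))
  rw [map_pow] at h1
  exact h1

variable {H : Type} [Group H]

/-- the universal property -/
def lift (f : Q →* H) (g : I → H) (h1 : ∀ a i j, R a i j → f a * g i * (f a)⁻¹ = g j)
    (h2 : ∀ a i j, E a i j → Commute (f a * g i * (f a)⁻¹) (g j)) (h3 : ∀ i, g i ^ μ i = 1) :
    K μ R E →* H :=
  QuotientGroup.lift _ (Coprod.lift f (FreeGroup.lift g)) (by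
    intro z hz
    have h4 : Subgroup.normalClosure (kRel μ R E) ≤ (Coprod.lift f (FreeGroup.lift g)).ker := by
      refine Subgroup.normalClosure_le_normal ?_
      rintro _ (⟨a, i, j, h, rfl⟩ | ⟨a, i, j, h, rfl⟩ | ⟨i, rfl⟩)
      · change Coprod.lift f (FreeGroup.lift g) _ = 1
        simp only [map_mul, map_inv, Coprod.lift_apply_inl, Coprod.lift_apply_inr,
          FreeGroup.lift_apply_of]
        rw [h1 a i j h, mul_inv_cancel]
      · change Coprod.lift f (FreeGroup.lift g) _ = 1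
        simp only [map_mul, map_inv, Coprod.lift_apply_inl, Coprod.lift_apply_inr,
          FreeGroup.lift_apply_of]
        rw [(h2 a i j h).eq]
        group
      · change Coprod.lift f (FreeGroup.lift g) _ = 1
        rw [map_pow, Coprod.lift_apply_inr, FreeGroup.lift_apply_of, h3]
    exact h4 hz)

section

variable (f : Q →* H) (g : I → H) (h1 : ∀ a i j, R a i j → f a * g i * (f a)⁻¹ = g j)
    (h2 : ∀ a i j, E a i j → Commute (f a * g i * (f a)⁻¹) (g j)) (h3 : ∀ i, g i ^ μ i = 1)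

theorem lift_q (a : Q) : lift f g h1 h2 h3 (q μ R E a) = f a := by
  change Coprod.lift f (FreeGroup.lift g) (Coprod.inl a) = f a
  rw [Coprod.lift_apply_inl]

theorem lift_y (i : I) : lift f g h1 h2 h3 (y μ R E i) = g i := by
  change Coprod.lift f (FreeGroup.lift g) (Coprod.inr (FreeGroup.of i)) = g i
  rw [Coprod.lift_apply_inr, FreeGroup.lift_apply_of]

end

theorem hom_ext {f g : K μ R E →* H} (h1 : ∀ a, f (q μ R E a) = g (q μ R E a))
    (h2 : ∀ i, f (y μ R E i) = g (y μ R E i)) : f = g := by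
  refine QuotientGroup.monoidHom_ext _ ?_
  refine Coprod.hom_ext ?_ ?_
  · exact MonoidHom.ext h1
  · exact FreeGroup.ext_hom _ _ h2

end K

/-! ### the graph -/

/-- the conjugates of the letters -/
def X : Type := Quot fun u v : Q × I => ∃ a, R a u.2 v.2 ∧ u.1 = v.1 * a

/-- the conjugate of `i` by `a` -/
def X.mk (a : Q) (i : I) : X R := Quot.mk _ (a, i)

variable {R} in
theorem X.eq {a : Q} {i j : I} (h : R a i j) (b : Q) : X.mk R (b * a) i = X.mk R b j :=
  Quot.sound ⟨a, h, rfl⟩

instance : MulAction Q (X R) where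
  smul a := Quot.map (fun u : Q × I => (a * u.1, u.2)) (by
    rintro ⟨u, i⟩ ⟨v, j⟩ ⟨b, hb, h⟩
    exact ⟨b, hb, by change a * u = a * v * b; rw [mul_assoc]; congr 1⟩)
  one_smul := by
    rintro ⟨u, i⟩
    change X.mk R (1 * u) i = X.mk R u i
    rw [one_mul]
  mul_smul := by
    rintro a b ⟨u, i⟩
    change X.mk R (a * b * u) i = X.mk R (a * (b * u)) i
    rw [mul_assoc]

theorem X.smul_mk (a b : Q) (i : I) : a • X.mk R b i = X.mk R (a * b) i := rfl

/-- the conjugates which commute by a relation -/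
def adj (x z : X R) : Prop := ∃ (b a : Q) (i j : I), E a i j ∧ x = X.mk R (b * a) i ∧ z = X.mk R b j

/-- the graph of the conjugates -/
def gr : SimpleGraph (X R) := SimpleGraph.fromRel (adj R E)

theorem gr_inv (h : Q) (v w : X R) (hvw : (gr R E).Adj v w) : (gr R E).Adj (h • v) (h • w) := by
  have key : ∀ v w : X R, adj R E v w → adj R E (h • v) (h • w) := by
    rintro _ _ ⟨b, a, i, j, he, rfl, rfl⟩
    exact ⟨h * b, a, i, j, he, by rw [X.smul_mk, mul_assoc], rfl⟩
  rw [gr, SimpleGraph.fromRel_adj] at hvw ⊢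
  refine ⟨fun h1 => hvw.1 ((MulAction.injective h) h1), ?_⟩
  exact hvw.2.imp (key v w) (key w v)

/-- an abelian group with elements of the given orders -/
structure Cut (B : Type) [CommGroup B] where
  b : ℕ → B
  p : ∀ n : ℕ, B →* Multiplicative (ZMod n)
  hb : ∀ i, b (μ i) ^ μ i = 1
  hp : ∀ i, p (μ i) (b (μ i)) = Multiplicative.ofAdd 1

variable {μ R E} {B : Type} [CommGroup B] (c : Cut μ B) (hR : ∀ a i j, R a i j → μ i = μ j)

/-- the homomorphism to the graph wreath product -/
noncomputable def Phi (hR : ∀ a i j, R a i j → μ i = μ j) : K μ R E →* GW (gr R E) B (gr_inv R E) :=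
  K.lift (SemidirectProduct.inr) (fun i => SemidirectProduct.inl (GP.of (X.mk R 1 i) (c.b (μ i)))) (by
    intro a i j h
    rw [conj_inl, GP.aut_of, X.smul_mk, mul_one, hR a i j h]
    have h1 := X.eq h 1
    rw [one_mul] at h1
    rw [h1]) (by
    intro a i j h
    rw [conj_inl, GP.aut_of, X.smul_mk, mul_one]
    change _ * _ = _ * _
    rw [← map_mul, ← map_mul]
    congr 1
    by_cases he : X.mk R a i = X.mk R 1 j
    · rw [he, ← map_mul, ← map_mul, mul_comm]
    · refine GP.of_comm ?_ _ _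
      rw [gr, SimpleGraph.fromRel_adj]
      exact ⟨he, Or.inl ⟨1, a, i, j, h, by rw [one_mul], rfl⟩⟩) (by
    intro i
    rw [← map_pow, ← map_pow, c.hb, map_one, map_one])

/-- the vertex groups -/
noncomputable def vert (hR : ∀ a i j, R a i j → μ i = μ j) (x : X R) : B →* K μ R E :=
  Quot.lift (fun u : Q × I => ((MulAut.conj (K.q μ R E u.1)).toMonoidHom.comp
    (zh (μ u.2) (K.y μ R E u.2) (K.pow u.2))).comp (c.p (μ u.2))) (by
    rintro ⟨u, i⟩ ⟨v, j⟩ ⟨a, ha, rfl⟩
    refine MonoidHom.ext fun b => ?_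
    change K.q μ R E (v * a) * zh (μ i) (K.y μ R E i) (K.pow i) (c.p (μ i) b) *
      (K.q μ R E (v * a))⁻¹ = K.q μ R E v * zh (μ j) (K.y μ R E j) (K.pow j) (c.p (μ j) b) *
      (K.q μ R E v)⁻¹
    have h1 := zh_conj (hR a i j ha) c.p (K.pow i) (K.pow j) (K.q μ R E a) (K.conj ha) b
    rw [map_mul, ← h1]
    group) x

theorem vert_mk (a : Q) (i : I) (b : B) : vert (E := E) c hR (X.mk R a i) b =
    K.q μ R E a * zh (μ i) (K.y μ R E i) (K.pow i) (c.p (μ i) b) * (K.q μ R E a)⁻¹ := rfl

theorem vert_comm (x z : X R) (h : adj R E x z) (p p' : B) :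
    Commute (vert (E := E) c hR x p) (vert (E := E) c hR z p') := by
  obtain ⟨b, a, i, j, he, rfl, rfl⟩ := h
  rw [vert_mk, vert_mk, map_mul]
  have h1 := zh_comm (K.pow i) (K.pow j) (K.q μ R E a) (K.comm he) (c.p (μ i) p) (c.p (μ j) p')
  have h2 := h1.map (MulAut.conj (K.q μ R E b)).toMonoidHom
  change Commute (K.q μ R E b * _ * (K.q μ R E b)⁻¹) (K.q μ R E b * _ * (K.q μ R E b)⁻¹) at h2
  have h3 : K.q μ R E b * K.q μ R E a * zh (μ i) (K.y μ R E i) (K.pow i) (c.p (μ i) p) *
      (K.q μ R E b * K.q μ R E a)⁻¹ = K.q μ R E b * (K.q μ R E a *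
      zh (μ i) (K.y μ R E i) (K.pow i) (c.p (μ i) p) * (K.q μ R E a)⁻¹) * (K.q μ R E b)⁻¹ := by
    group
  rw [h3]
  exact h2

/-- the homomorphism from the graph product -/
noncomputable def fromGP (hR : ∀ a i j, R a i j → μ i = μ j) : GP (gr R E) B →* K μ R E :=
  GP.lift (vert c hR) (by
    intro v w h p p'
    rw [gr, SimpleGraph.fromRel_adj] at h
    rcases h.2 with h1 | h1
    · exact vert_comm c hR v w h1 p p'
    · exact (vert_comm c hR w v h1 p' p).symm)

/-- the homomorphism from the graph wreath product -/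
noncomputable def Psi (hR : ∀ a i j, R a i j → μ i = μ j) : GW (gr R E) B (gr_inv R E) →* K μ R E :=
  SemidirectProduct.lift (fromGP c hR) (K.q μ R E) (by
    intro a
    refine GP.hom_ext fun v p => ?_
    change fromGP c hR (GP.aut (gr R E) B (gr_inv R E) a (GP.of v p)) =
      K.q μ R E a * fromGP c hR (GP.of v p) * (K.q μ R E a)⁻¹
    rw [GP.aut_of]
    change GP.lift (vert c hR) _ (GP.of (a • v) p) = _ * GP.lift (vert c hR) _ (GP.of v p) * _
    rw [GP.lift_of, GP.lift_of]
    induction v using Quot.ind with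
    | mk u =>
      obtain ⟨u, i⟩ := u
      change vert c hR (X.mk R (a * u) i) p = K.q μ R E a * vert c hR (X.mk R u i) p * (K.q μ R E a)⁻¹
      rw [vert_mk, vert_mk, map_mul]
      group)

theorem Psi_Phi (x : K μ R E) : Psi c hR (Phi c hR x) = x := by
  have h : (Psi (E := E) c hR).comp (Phi c hR) = MonoidHom.id _ := by
    refine K.hom_ext (fun a => ?_) (fun i => ?_)
    · change Psi c hR (K.lift _ _ _ _ _ (K.q μ R E a)) = K.q μ R E a
      rw [K.lift_q]
      unfold Psi
      rw [SemidirectProduct.lift_inr]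
    · change Psi c hR (K.lift _ _ _ _ _ (K.y μ R E i)) = K.y μ R E i
      rw [K.lift_y]
      unfold Psi
      rw [SemidirectProduct.lift_inl]
      change GP.lift (vert c hR) _ (GP.of _ _) = _
      rw [GP.lift_of, vert_mk, c.hp, zh_one, map_one, one_mul, inv_one, mul_one]
  exact DFunLike.congr_fun h x

theorem Phi_injective : Function.Injective (Phi (E := E) c hR) :=
  Function.LeftInverse.injective (g := Psi c hR) (Psi_Phi c hR)

/-- the product of all the cyclic groups -/
def cutAll (μ : I → ℕ) : Cut μ (∀ n : ℕ, Multiplicative (ZMod n)) where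
  b n := Pi.mulSingle n (Multiplicative.ofAdd 1)
  p n := Pi.evalMonoidHom _ n
  hb i := by
    rw [← Pi.mulSingle_pow, ← ofAdd_nsmul, nsmul_eq_mul, mul_one, ZMod.natCast_self, ofAdd_zero,
      Pi.mulSingle_one]
  hp i := by
    exact Pi.mulSingle_eq_same (M := fun n : ℕ => Multiplicative (ZMod n)) (μ i)
      (Multiplicative.ofAdd (1 : ZMod (μ i)))

/-- the infinite cyclic group -/
def cutInt (μ : I → ℕ) (h : ∀ i, μ i = 0) : Cut μ (Multiplicative ℤ) where
  b _ := Multiplicative.ofAdd 1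
  p n := (Int.castAddHom (ZMod n)).toMultiplicative
  hb i := by rw [h, pow_zero]
  hp i := by
    change Multiplicative.ofAdd ((1 : ℤ) : ZMod (μ i)) = _
    rw [Int.cast_one]

/-- **One level.** -/
theorem k_mem {C : ∀ (G : Type) [Group G], Prop} (hC : ClosedE C) (hR : ∀ a i j, R a i j → μ i = μ j)
    (hQ : C Q) : C (K μ R E) :=
  hC.base.of_injective _ _ (Phi (cutAll μ) hR) (Phi_injective _ hR)
    (graph_wreath _ _ _ hC.base (ext_closed hC) (comm_mem hC.base _) hQ)

/-- torsion-free groups -/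
theorem k_tf (hR : ∀ a i j, R a i j → μ i = μ j) (h0 : ∀ i, μ i = 0) (hQ : TF Q) : TF (K μ R E) := by
  refine TF.inj (Phi (cutInt μ h0) hR) (Phi_injective _ hR) (TF.semi (TF.gp _ ?_ _ _) hQ)
  intro g hg
  by_contra h
  exact not_isOfFinOrder_of_isMulTorsionFree h hg

end Pool.Agent.H91.CP
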