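import Pool.Agent.H91.CP.Eng

/-!
# Presentations by conjugation relations with finitely many levels
-/

set_option autoImplicit false
set_option linter.style.haveILetI false
set_option linter.unusedSectionVars false
set_option linter.unusedVariables false

namespace Pool.Agent.H91.CP

open Pool.Agent.Q105.FJ Monoid
open Pool.Agent.Y110.FJ (ClosedE)
open Pool.Agent.Y462.SS (Closed)

section defs

variable {Q : Type} [Group Q] {V : Type}

/-- a letter, in the free product of `Q` and the free group -/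
def lt (Q : Type) [Group Q] {V : Type} (v : V) : Coprod Q (FreeGroup V) := Coprod.inr (FreeGroup.of v)

/-- the subgroup generated by `Q` and the letters above `p` -/
def High (Q : Type) [Group Q] {V : Type} {P : Type*} [LT P] (rk : V → P) (p : P) :
    Subgroup (Coprod Q (FreeGroup V)) :=
  Subgroup.closure (Set.range Coprod.inl ∪ {x | ∃ v, p < rk v ∧ x = lt Q v})

/-- the relators `w v w⁻¹ z⁻¹` and `[w v w⁻¹, z]` with `w` above `v`, `z` on the level of `v` -/
def IsRel {P : Type*} [LT P] (rk : V → P) (ord : V → ℕ) (x : Coprod Q (FreeGroup V)) : Prop :=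
  ∃ w v z, w ∈ High Q rk (rk v) ∧ rk z = rk v ∧
    ((ord z = ord v ∧ x = w * lt Q v * w⁻¹ * (lt Q z)⁻¹) ∨
      x = w * lt Q v * w⁻¹ * lt Q z * (w * lt Q v * w⁻¹)⁻¹ * (lt Q z)⁻¹)

/-- the relators which give the orders of the letters -/
def pw (ord : V → ℕ) : Set (Coprod Q (FreeGroup V)) := {x | ∃ v, x = lt Q v ^ ord v}

/-- the presented group -/
abbrev PG (ord : V → ℕ) (S : Set (Coprod Q (FreeGroup V))) : Type :=
  Coprod Q (FreeGroup V) ⧸ Subgroup.normalClosure (S ∪ pw ord)

theorem lt_mem {P : Type*} [LT P] (rk : V → P) {p : P} {v : V} (h : p < rk v) :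
    lt Q v ∈ High Q rk p := Subgroup.subset_closure (Or.inr ⟨v, h, rfl⟩)

theorem inl_mem {P : Type*} [LT P] (rk : V → P) (p : P) (a : Q) :
    (Coprod.inl a : Coprod Q (FreeGroup V)) ∈ High Q rk p :=
  Subgroup.subset_closure (Or.inl ⟨a, rfl⟩)

theorem high_anti {P : Type*} [Preorder P] (rk : V → P) {p q : P} (h : p ≤ q) :
    High Q rk q ≤ High Q rk p := by
  refine Subgroup.closure_mono (Set.union_subset_union_right _ ?_)
  rintro _ ⟨v, hv, rfl⟩
  exact ⟨v, lt_of_le_of_lt h hv, rfl⟩

/-- homomorphisms from the free product -/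
theorem fhom_ext {H : Type} [Group H] {f g : Coprod Q (FreeGroup V) →* H}
    (h1 : ∀ a, f (Coprod.inl a) = g (Coprod.inl a)) (h2 : ∀ v, f (lt Q v) = g (lt Q v)) : f = g := by
  refine Coprod.hom_ext ?_ ?_
  · exact MonoidHom.ext h1
  · exact FreeGroup.ext_hom _ _ h2

/-- a homomorphism given on the generators -/
def fh {H : Type} [Group H] (f : Q →* H) (g : V → H) : Coprod Q (FreeGroup V) →* H :=
  Coprod.lift f (FreeGroup.lift g)

theorem fh_inl {H : Type} [Group H] (f : Q →* H) (g : V → H) (a : Q) : fh f g (Coprod.inl a) = f a := by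
  unfold fh
  rw [Coprod.lift_apply_inl]

theorem fh_lt {H : Type} [Group H] (f : Q →* H) (g : V → H) (v : V) : fh f g (lt Q v) = g v := by
  unfold fh lt
  rw [Coprod.lift_apply_inr, FreeGroup.lift_apply_of]

/-- homomorphisms which agree on `Q` and the letters above `p` -/
theorem eq_high {P : Type*} [LT P] (rk : V → P) (p : P) {H : Type} [Group H]
    {f g : Coprod Q (FreeGroup V) →* H} (h1 : ∀ a, f (Coprod.inl a) = g (Coprod.inl a))
    (h2 : ∀ v, p < rk v → f (lt Q v) = g (lt Q v)) (w : Coprod Q (FreeGroup V))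
    (hw : w ∈ High Q rk p) : f w = g w := by
  have h3 : High Q rk p ≤ MonoidHom.eqLocus f g := by
    refine (Subgroup.closure_le _).2 ?_
    rintro _ (⟨a, rfl⟩ | ⟨v, hv, rfl⟩)
    · exact h1 a
    · exact h2 v hv
  exact h3 hw

/-- the two kinds of relators are killed if the letters on the level are -/
theorem IsRel.kill {P : Type*} [LT P] {rk : V → P} {ord : V → ℕ} {x : Coprod Q (FreeGroup V)}
    {H : Type} [Group H] (f : Coprod Q (FreeGroup V) →* H) {w : Coprod Q (FreeGroup V)} {v z : V}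
    (h : (ord z = ord v ∧ x = w * lt Q v * w⁻¹ * (lt Q z)⁻¹) ∨
      x = w * lt Q v * w⁻¹ * lt Q z * (w * lt Q v * w⁻¹)⁻¹ * (lt Q z)⁻¹)
    (h1 : f (lt Q v) = 1) (h2 : f (lt Q z) = 1) : f x = 1 := by
  rcases h with ⟨-, rfl⟩ | rfl
  · simp only [map_mul, map_inv, h1, h2, mul_one, inv_one, mul_inv_cancel]
  · simp only [map_mul, map_inv, h1, h2, mul_one, inv_one, mul_inv_cancel]

/-- a relator is in the subgroup above -/
theorem IsRel.mem {P : Type*} [Preorder P] {rk : V → P} {ord : V → ℕ} {x : Coprod Q (FreeGroup V)}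
    {p : P} {w : Coprod Q (FreeGroup V)} {v z : V} (hw : w ∈ High Q rk (rk v)) (hz : rk z = rk v)
    (h : (ord z = ord v ∧ x = w * lt Q v * w⁻¹ * (lt Q z)⁻¹) ∨
      x = w * lt Q v * w⁻¹ * lt Q z * (w * lt Q v * w⁻¹)⁻¹ * (lt Q z)⁻¹) (hp : p < rk v) :
    x ∈ High Q rk p := by
  have h1 : w ∈ High Q rk p := high_anti rk hp.le hw
  have h2 : lt Q v ∈ High Q rk p := lt_mem rk hp
  have h3 : lt Q z ∈ High Q rk p := lt_mem rk (by rw [hz]; exact hp)
  have h4 : w * lt Q v * w⁻¹ ∈ High Q rk p := mul_mem (mul_mem h1 h2) (inv_mem h1)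
  rcases h with ⟨-, rfl⟩ | rfl
  · exact mul_mem h4 (inv_mem h3)
  · exact mul_mem (mul_mem (mul_mem h4 h3) (inv_mem h4)) (inv_mem h3)

end defs

/-! ### the levels -/

section level

variable {Q : Type} [Group Q] {V : Type} (rk : V → ℕ) (ord : V → ℕ)
  (S : Set (Coprod Q (FreeGroup V))) (k : ℕ)

/-- the relators of the group without the letters below `k` -/
def rels : Set (Coprod Q (FreeGroup V)) := (S ∪ pw ord) ∪ {x | ∃ v, rk v < k ∧ x = lt Q v}

/-- the group without the letters below `k` -/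
def Lv : Type := Coprod Q (FreeGroup V) ⧸ Subgroup.normalClosure (rels rk ord S k)

instance : Group (Lv rk ord S k) := inferInstanceAs (Group (_ ⧸ _))

/-- the projection -/
def pr : Coprod Q (FreeGroup V) →* Lv rk ord S k :=
  QuotientGroup.mk' (Subgroup.normalClosure (rels rk ord S k))

variable {rk ord S k}

theorem pr_rel {x : Coprod Q (FreeGroup V)} (h : x ∈ rels rk ord S k) : pr rk ord S k x = 1 :=
  (QuotientGroup.eq_one_iff _).2 (Subgroup.subset_normalClosure h)

/-- the universal property -/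
def Lv.lift {H : Type} [Group H] (f : Coprod Q (FreeGroup V) →* H)
    (hf : ∀ x ∈ rels rk ord S k, f x = 1) : Lv rk ord S k →* H :=
  QuotientGroup.lift _ f (by
    intro z hz
    have h4 : Subgroup.normalClosure (rels rk ord S k) ≤ f.ker :=
      Subgroup.normalClosure_le_normal hf
    exact h4 hz)

theorem Lv.lift_pr {H : Type} [Group H] (f : Coprod Q (FreeGroup V) →* H)
    (hf : ∀ x ∈ rels rk ord S k, f x = 1) (x : Coprod Q (FreeGroup V)) :
    Lv.lift f hf (pr rk ord S k x) = f x := rfl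

theorem Lv.hom_ext {H : Type} [Group H] {f g : Lv rk ord S k →* H}
    (h1 : ∀ a, f (pr rk ord S k (Coprod.inl a)) = g (pr rk ord S k (Coprod.inl a)))
    (h2 : ∀ v, f (pr rk ord S k (lt Q v)) = g (pr rk ord S k (lt Q v))) : f = g := by
  refine QuotientGroup.monoidHom_ext _ ?_
  exact fhom_ext h1 h2

/-- the projection to `Q` -/
def Lv.toQ (hS : ∀ x ∈ S, IsRel rk ord x) : Lv rk ord S k →* Q :=
  Lv.lift (fh (MonoidHom.id Q) (fun _ => 1)) (by
    rintro x ((hx | ⟨v, rfl⟩) | ⟨v, _, rfl⟩)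
    · obtain ⟨w, v, z, -, -, h⟩ := hS x hx
      exact IsRel.kill (rk := rk) _ h (fh_lt _ _ _) (fh_lt _ _ _)
    · rw [map_pow, fh_lt, one_pow]
    · rw [fh_lt])

theorem Lv.toQ_inl (hS : ∀ x ∈ S, IsRel rk ord x) (a : Q) :
    Lv.toQ (k := k) hS (pr rk ord S k (Coprod.inl a)) = a :=
  (fh_inl (V := V) (MonoidHom.id Q) (fun _ => 1) a : _)

/-- above all levels -/
theorem Lv.toQ_injective (hS : ∀ x ∈ S, IsRel rk ord x) (hk : ∀ v, rk v < k) :
    Function.Injective (Lv.toQ (k := k) hS) := by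
  refine Function.LeftInverse.injective (g := (pr rk ord S k).comp Coprod.inl) ?_
  intro x
  have h : ((pr rk ord S k).comp Coprod.inl).comp (Lv.toQ (k := k) hS) = MonoidHom.id _ := by
    refine Lv.hom_ext (fun a => ?_) (fun v => ?_)
    · change pr rk ord S k (Coprod.inl (Lv.toQ hS (pr rk ord S k (Coprod.inl a)))) = _
      rw [Lv.toQ_inl]
      rfl
    · have h1 : pr rk ord S k (lt Q v) = 1 := pr_rel (Or.inr ⟨v, hk v, rfl⟩)
      rw [h1, map_one, map_one]
  exact DFunLike.congr_fun h x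

/-! ### the step -/

variable (rk ord S k)

/-- the relations of the first kind on the level `k` -/
def RR (q : Lv rk ord S (k + 1)) (i j : {v // rk v = k}) : Prop :=
  ord i.1 = ord j.1 ∧ ∃ w ∈ High Q rk k, w * lt Q i.1 * w⁻¹ * (lt Q j.1)⁻¹ ∈ S ∧
    q = pr rk ord S (k + 1) w

/-- the relations of the second kind on the level `k` -/
def EE (q : Lv rk ord S (k + 1)) (i j : {v // rk v = k}) : Prop :=
  ∃ w ∈ High Q rk k, w * lt Q i.1 * w⁻¹ * lt Q j.1 * (w * lt Q i.1 * w⁻¹)⁻¹ * (lt Q j.1)⁻¹ ∈ S ∧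
    q = pr rk ord S (k + 1) w

/-- the level `k` over the higher levels -/
abbrev KK : Type := K (fun i : {v // rk v = k} => ord i.1) (RR rk ord S k) (EE rk ord S k)

open scoped Classical in
/-- the map to `KK`, on the free product -/
noncomputable def th0 : Coprod Q (FreeGroup V) →* KK rk ord S k :=
  fh ((K.q (fun i : {v // rk v = k} => ord i.1) (RR rk ord S k) (EE rk ord S k)).comp
    ((pr rk ord S (k + 1)).comp Coprod.inl))
    (fun v => if h : rk v = k then
      K.y (fun i : {v // rk v = k} => ord i.1) (RR rk ord S k) (EE rk ord S k) ⟨v, h⟩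
      else if k < rk v then K.q (fun i : {v // rk v = k} => ord i.1) (RR rk ord S k) (EE rk ord S k)
        (pr rk ord S (k + 1) (lt Q v)) else 1)

variable {rk ord S k}

theorem th0_eq {v : V} (h : rk v = k) : th0 rk ord S k (lt Q v) =
    K.y (fun i : {v // rk v = k} => ord i.1) (RR rk ord S k) (EE rk ord S k) ⟨v, h⟩ := by
  unfold th0
  rw [fh_lt, dif_pos h]

theorem th0_gt {v : V} (h : k < rk v) : th0 rk ord S k (lt Q v) =
    K.q (fun i : {v // rk v = k} => ord i.1) (RR rk ord S k) (EE rk ord S k)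
      (pr rk ord S (k + 1) (lt Q v)) := by
  unfold th0
  rw [fh_lt, dif_neg (by omega), if_pos h]

theorem th0_lt {v : V} (h : rk v < k) : th0 rk ord S k (lt Q v) = 1 := by
  unfold th0
  rw [fh_lt, dif_neg (by omega), if_neg (by omega)]

theorem th0_high (w : Coprod Q (FreeGroup V)) (hw : w ∈ High Q rk k) : th0 rk ord S k w =
    K.q (fun i : {v // rk v = k} => ord i.1) (RR rk ord S k) (EE rk ord S k)
      (pr rk ord S (k + 1) w) := by
  refine eq_high (g := (K.q (fun i : {v // rk v = k} => ord i.1) (RR rk ord S k)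
    (EE rk ord S k)).comp (pr rk ord S (k + 1))) rk k (fun a => ?_) (fun v hv => ?_) w hw
  · unfold th0
    rw [fh_inl]
    rfl
  · rw [th0_gt hv]
    rfl

/-- the map to `KK` -/
noncomputable def th (hS : ∀ x ∈ S, IsRel rk ord x) : Lv rk ord S k →* KK rk ord S k :=
  Lv.lift (th0 rk ord S k) (by
    rintro x ((hx | ⟨v, rfl⟩) | ⟨v, hv, rfl⟩)
    · obtain ⟨w, v, z, hw, hz, h⟩ := hS x hx
      rcases lt_trichotomy (rk v) k with hk | hk | hk
      · exact IsRel.kill (rk := rk) _ h (th0_lt hk) (th0_lt (by omega))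
      · have hw' : w ∈ High Q rk k := by rw [← hk]; exact hw
        rcases h with ⟨ho, rfl⟩ | rfl
        · have h1 : RR rk ord S k (pr rk ord S (k + 1) w) ⟨v, hk⟩ ⟨z, hz.trans hk⟩ :=
            ⟨ho.symm, w, hw', hx, rfl⟩
          have h2 := K.conj (μ := fun i : {v // rk v = k} => ord i.1) (E := EE rk ord S k) h1
          rw [map_mul, map_mul, map_mul, map_inv, map_inv, th0_high w hw', th0_eq hk,
            th0_eq (hz.trans hk), h2, mul_inv_cancel]
        · have h1 : EE rk ord S k (pr rk ord S (k + 1) w) ⟨v, hk⟩ ⟨z, hz.trans hk⟩ :=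
            ⟨w, hw', hx, rfl⟩
          have h2 := K.comm (μ := fun i : {v // rk v = k} => ord i.1) (R := RR rk ord S k) h1
          rw [map_mul, map_mul, map_inv, map_inv, map_mul, map_mul, map_mul, map_inv,
            th0_high w hw', th0_eq hk, th0_eq (hz.trans hk), h2.eq]
          group
      · rw [th0_high x (IsRel.mem hw hz h hk), pr_rel (Or.inl (Or.inl hx)), map_one]
    · rcases lt_trichotomy (rk v) k with hk | hk | hk
      · rw [map_pow, th0_lt hk, one_pow]
      · rw [map_pow, th0_eq hk]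
        exact K.pow (μ := fun i : {v // rk v = k} => ord i.1) ⟨v, hk⟩
      · rw [th0_high _ (pow_mem (lt_mem rk hk) _), pr_rel (Or.inl (Or.inr ⟨v, rfl⟩)), map_one]
    · exact th0_lt hv)

open scoped Classical in
/-- the section, on the free product -/
noncomputable def se0 (rk ord : V → ℕ) (S : Set (Coprod Q (FreeGroup V))) (k : ℕ) :
    Coprod Q (FreeGroup V) →* Lv rk ord S k :=
  fh ((pr rk ord S k).comp Coprod.inl) (fun v => if k < rk v then pr rk ord S k (lt Q v) else 1)

theorem se0_gt {v : V} (h : k < rk v) : se0 rk ord S k (lt Q v) = pr rk ord S k (lt Q v) := by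
  unfold se0
  rw [fh_lt, if_pos h]

theorem se0_le {v : V} (h : rk v ≤ k) : se0 rk ord S k (lt Q v) = 1 := by
  unfold se0
  rw [fh_lt, if_neg (by omega)]

theorem se0_high (w : Coprod Q (FreeGroup V)) (hw : w ∈ High Q rk k) :
    se0 rk ord S k w = pr rk ord S k w := by
  refine eq_high rk k (fun a => ?_) (fun v hv => se0_gt hv) w hw
  unfold se0
  rw [fh_inl]
  rfl

/-- the section -/
noncomputable def se (hS : ∀ x ∈ S, IsRel rk ord x) : Lv rk ord S (k + 1) →* Lv rk ord S k :=
  Lv.lift (se0 rk ord S k) (by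
    rintro x ((hx | ⟨v, rfl⟩) | ⟨v, hv, rfl⟩)
    · obtain ⟨w, v, z, hw, hz, h⟩ := hS x hx
      rcases le_or_gt (rk v) k with hk | hk
      · exact IsRel.kill (rk := rk) _ h (se0_le hk) (se0_le (by omega))
      · rw [se0_high x (IsRel.mem hw hz h hk), pr_rel (Or.inl (Or.inl hx))]
    · rcases le_or_gt (rk v) k with hk | hk
      · rw [map_pow, se0_le hk, one_pow]
      · rw [se0_high _ (pow_mem (lt_mem rk hk) _), pr_rel (Or.inl (Or.inr ⟨v, rfl⟩))]
    · exact se0_le (by omega))

/-- the left inverse -/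
noncomputable def ps (hS : ∀ x ∈ S, IsRel rk ord x) : KK rk ord S k →* Lv rk ord S k :=
  K.lift (se hS) (fun i => pr rk ord S k (lt Q i.1)) (by
    rintro _ ⟨i, hi⟩ ⟨j, hj⟩ ⟨ho, w, hw, hx, rfl⟩
    have h1 : se hS (pr rk ord S (k + 1) w) = pr rk ord S k w := se0_high w hw
    have h2 : pr rk ord S k (w * lt Q i * w⁻¹ * (lt Q j)⁻¹) = 1 := pr_rel (Or.inl (Or.inl hx))
    rw [map_mul, map_inv, mul_inv_eq_one, map_mul, map_mul, map_inv] at h2
    rw [h1]
    exact h2) (by
    rintro _ ⟨i, hi⟩ ⟨j, hj⟩ ⟨w, hw, hx, rfl⟩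
    have h1 : se hS (pr rk ord S (k + 1) w) = pr rk ord S k w := se0_high w hw
    have h2 : pr rk ord S k (w * lt Q i * w⁻¹ * lt Q j * (w * lt Q i * w⁻¹)⁻¹ * (lt Q j)⁻¹) = 1 :=
      pr_rel (Or.inl (Or.inl hx))
    rw [map_mul, map_inv, mul_inv_eq_one, map_mul, map_inv, mul_inv_eq_iff_eq_mul, map_mul, map_mul,
      map_mul, map_inv] at h2
    rw [h1]
    exact h2) (by
    rintro ⟨i, hi⟩
    change pr rk ord S k (lt Q i) ^ ord i = 1
    rw [← map_pow]
    exact pr_rel (Or.inl (Or.inr ⟨i, rfl⟩)))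

theorem ps_th (hS : ∀ x ∈ S, IsRel rk ord x) (x : Lv rk ord S k) : ps hS (th hS x) = x := by
  have h : (ps hS).comp (th hS) = MonoidHom.id (Lv rk ord S k) := by
    refine Lv.hom_ext (fun a => ?_) (fun v => ?_)
    · have h1 : th hS (pr rk ord S k (Coprod.inl a)) =
          K.q (fun i : {v // rk v = k} => ord i.1) (RR rk ord S k) (EE rk ord S k)
            (pr rk ord S (k + 1) (Coprod.inl a)) := th0_high _ (inl_mem rk k a)
      rw [MonoidHom.comp_apply, h1]
      unfold ps
      rw [K.lift_q]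
      exact se0_high _ (inl_mem rk k a)
    · rw [MonoidHom.comp_apply]
      rcases lt_trichotomy (rk v) k with hk | hk | hk
      · have h1 : pr rk ord S k (lt Q v) = 1 := pr_rel (Or.inr ⟨v, hk, rfl⟩)
        rw [h1, map_one, map_one, map_one]
      · have h1 : th hS (pr rk ord S k (lt Q v)) =
          K.y (fun i : {v // rk v = k} => ord i.1) (RR rk ord S k) (EE rk ord S k) ⟨v, hk⟩ :=
          th0_eq hk
        rw [h1]
        unfold ps
        rw [K.lift_y]
        rfl
      · have h1 : th hS (pr rk ord S k (lt Q v)) =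
          K.q (fun i : {v // rk v = k} => ord i.1) (RR rk ord S k) (EE rk ord S k)
            (pr rk ord S (k + 1) (lt Q v)) := th0_high _ (lt_mem rk hk)
        rw [h1]
        unfold ps
        rw [K.lift_q]
        exact se0_high _ (lt_mem rk hk)
  exact DFunLike.congr_fun h x

theorem th_injective (hS : ∀ x ∈ S, IsRel rk ord x) :
    Function.Injective (th (k := k) hS) :=
  Function.LeftInverse.injective (g := ps hS) (ps_th hS)

/-- **finitely many levels** -/
theorem lv_mem {C : ∀ (G : Type) [Group G], Prop} (hC : ClosedE C) (hS : ∀ x ∈ S, IsRel rk ord x)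
    (n : ℕ) (hn : ∀ v, rk v < n) (hQ : C Q) (m : ℕ) (k : ℕ) (hm : k + m = n) :
    C (Lv rk ord S k) := by
  induction m generalizing k with
  | zero =>
    rw [add_zero] at hm
    subst hm
    exact hC.base.of_injective _ _ (Lv.toQ hS) (Lv.toQ_injective hS hn) hQ
  | succ m ih =>
    have h1 := ih (k + 1) (by omega)
    exact hC.base.of_injective _ _ (th hS) (th_injective hS)
      (k_mem hC (fun a i j h => h.1) h1)

theorem lv_tf (hS : ∀ x ∈ S, IsRel rk ord x)
    (n : ℕ) (hn : ∀ v, rk v < n) (h0 : ∀ v, ord v = 0) (hQ : TF Q) (m : ℕ) (k : ℕ) (hm : k + m = n) :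
    TF (Lv rk ord S k) := by
  induction m generalizing k with
  | zero =>
    rw [add_zero] at hm
    subst hm
    exact TF.inj (Lv.toQ hS) (Lv.toQ_injective hS hn) hQ
  | succ m ih =>
    have h1 := ih (k + 1) (by omega)
    exact TF.inj (th hS) (th_injective hS)
      (k_tf (fun a i j h => h.1) (fun i => h0 i.1) h1)

variable (rk ord S)

/-- the presented group is the group of all letters -/
def pg_lv : PG ord S ≃* Lv rk ord S 0 :=
  QuotientGroup.quotientMulEquivOfEq (by
    congr 1
    refine (Set.union_empty _).symm.trans ?_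
    congr 1
    refine (Set.eq_empty_iff_forall_notMem.2 ?_).symm
    rintro _ ⟨v, hv, rfl⟩
    omega)

end level

end Pool.Agent.H91.CP
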